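import Pool.Agent.Lib.SymForcing.Defs

/-!
The sentences (K), (FU) and CMC read inside a structure `(M, E)`.
Every quantifier ranges over `M`.
-/

namespace Pool.Agent.MP_67b169_lc

open Pool.Agent.Lib.Forcing Pool.Agent.Lib.SymForcing

universe u

variable {M : Type u} (E : M → M → Prop)

/-- `z = x ∩ y`. -/
def Inter (x y z : M) : Prop := ∀ t, E t z ↔ E t x ∧ E t y

/-- `z = x \ y`. -/
def Diff (x y z : M) : Prop := ∀ t, E t z ↔ E t x ∧ ¬ E t y

/-- `τ` is a topology on `X`. -/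
def IsTop (X τ : M) : Prop :=
  (∀ U, E U τ → Sub E U X) ∧ E X τ ∧ (∀ U V W, E U τ → E V τ → Inter E U V W → E W τ) ∧
    ∀ C W, Sub E C τ → (∀ t, E t W ↔ ∃ U, E U C ∧ E t U) → E W τ

/-- Distinct points have disjoint open neighbourhoods. -/
def Hausdorff (X τ : M) : Prop :=
  ∀ x y, E x X → E y X → x ≠ y →
    ∃ U V, E U τ ∧ E V τ ∧ E x U ∧ E y V ∧ ∀ t, ¬ (E t U ∧ E t V)

/-- `N` is a neighbourhood of `x`. -/
def Nbhd (X τ x N : M) : Prop := Sub E N X ∧ ∃ U, E U τ ∧ E x U ∧ Sub E U N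

/-- Every point has a countable neighbourhood base. -/
def FirstCountable (X τ : M) : Prop :=
  ∀ x, E x X → ∃ 𝓑, (IsFin E 𝓑 ∨ IsDenum E 𝓑) ∧ (∀ N, E N 𝓑 → Nbhd E X τ x N) ∧
    ∀ N, Nbhd E X τ x N → ∃ N', E N' 𝓑 ∧ Sub E N' N

/-- `V` is an open set of the subspace `K`. -/
def OpenIn (τ K V : M) : Prop := ∃ U, E U τ ∧ Inter E U K V

/-- `F` is a closed set of the subspace `K`. -/
def ClosedIn (τ K F : M) : Prop := Sub E F K ∧ ∃ V, OpenIn E τ K V ∧ Diff E K F V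

/-- Every cover of `K` by open sets of `K` has a finite subcover. -/
def CompactSub (τ K : M) : Prop :=
  ∀ C, (∀ V, E V C → OpenIn E τ K V) → (∀ x, E x K → ∃ V, E V C ∧ E x V) →
    ∃ D, Sub E D C ∧ IsFin E D ∧ ∀ x, E x K → ∃ V, E V D ∧ E x V

/-- `(X, τ)` is a k-space. -/
def KSpace (X τ : M) : Prop :=
  ∀ A, Sub E A X →
    (∀ K F, Sub E K X → CompactSub E τ K → Inter E A K F → ClosedIn E τ K F) →
    ∃ V, E V τ ∧ Diff E X A V

/-- The sequence `s`, indexed by `w = ω`, converges to `x`. -/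
def Conv (τ w s x : M) : Prop :=
  ∀ U, E U τ → E x U → ∃ n, E n w ∧ ∀ m y, E m w → Sub E n m → Ap E s m y → E y U

/-- `(X, τ)` is Frechet-Urysohn. -/
def FrechetUrysohn (X τ : M) : Prop :=
  ∀ A x, Sub E A X → E x X → (∀ U, E U τ → E x U → ∃ a, E a U ∧ E a A) →
    ∃ w s, Om E w ∧ Fn E w (fun _ y => E y A) s ∧ Conv E τ w s x

/-- The sentence (K). -/
def SentK : Prop :=
  ∀ X τ, IsTop E X τ → Hausdorff E X τ → FirstCountable E X τ → KSpace E X τ

/-- The sentence (FU). -/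
def SentFU : Prop :=
  ∀ X τ, IsTop E X τ → Hausdorff E X τ → FirstCountable E X τ → FrechetUrysohn E X τ

/-- Countable multiple choice: for every sequence of non-empty sets `a n` there is a sequence of
non-empty finite sets `b n ⊆ a n`. -/
def CMC : Prop :=
  ∀ w f, Om E w → Fn E w (fun _ a => ∃ t, E t a) f →
    ∃ g, Fn E w (fun n b => (∃ t, E t b) ∧ IsFin E b ∧ ∀ a, Ap E f n a → Sub E b a) g

end Pool.Agent.MP_67b169_lc
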