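import Pool.Agent.MP_67b169_lc.Defs
import Pool.Agent.Lib.SymForcing.Fin

/-!
Arguments inside an arbitrary model of ZF: CMC implies (K); a space refuting (FU).
-/

namespace Pool.Agent.MP_67b169_lc

open Pool.Agent.Lib.Forcing Pool.Agent.Lib.SymForcing

universe u

variable {M : Type u} {E : M → M → Prop}

theorem exists_bdry (h : ZF E) {X τ A : M} (hT : IsTop E X τ)
    (hne : ¬ ∃ V, E V τ ∧ Diff E X A V) :
    ∃ x, E x X ∧ ¬ E x A ∧ ∀ U, E U τ → E x U → ∃ a, E a U ∧ E a A := by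
  have := h.nonempty
  by_contra hc
  push Not at hc
  obtain ⟨C, hC⟩ := h.sep' (fun U => ∀ a, E a U → ¬ E a A) τ
  obtain ⟨W, hW⟩ := h.sep' (fun t => ¬ E t A) X
  refine hne ⟨W, hT.2.2.2 C W (fun U hU => ((hC U).1 hU).1) fun t => ⟨fun ht => ?_, ?_⟩, hW⟩
  · obtain ⟨U, h1, h2, h3⟩ := hc t ((hW t).1 ht).1 ((hW t).1 ht).2
    exact ⟨U, (hC U).2 ⟨h1, h3⟩, h2⟩
  · rintro ⟨U, h1, h2⟩
    exact (hW t).2 ⟨hT.1 U ((hC U).1 h1).1 t h2, ((hC U).1 h1).2 t h2⟩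

theorem exists_enum (h : ZF E) {B : M} (hB : IsFin E B ∨ IsDenum E B) :
    ∃ w D f, Om E w ∧ Sub E D w ∧ Bij E f D B := by
  rcases hB with ⟨w, n, f, hw, hn, hf⟩ | ⟨w, f, hw, hf⟩
  · exact ⟨w, n, f, hw, h.om_trans hw hn, hf⟩
  · exact ⟨w, w, f, hw, fun _ hz => hz, hf⟩

theorem exists_seq (h : ZF E) (hc : CMC E) {X τ A x : M} (hT : IsTop E X τ) (hx : E x X)
    (hF : FirstCountable E X τ) (hcl : ∀ U, E U τ → E x U → ∃ a, E a U ∧ E a A) :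
    ∃ w g, Om E w ∧ Fn E w (fun _ b => (∃ t, E t b) ∧ IsFin E b ∧ Sub E b A) g ∧
      ∀ U, E U τ → E x U → ∃ i, E i w ∧ ∀ j b, Ap E g j b → E i j → Sub E b U := by
  have := h.nonempty
  obtain ⟨B, hB, hB1, hB2⟩ := hF x hx
  obtain ⟨w, D, f, hw, hD, hf, -, hsurj⟩ := exists_enum h hB
  have h3 := h.om_ind hw (fun j => ∃ U, E U τ ∧ E x U ∧ ∀ i N, E i j → Ap E f i N → Sub E U N)
    (fun e he => ⟨X, hT.2.1, hx, fun i N hi => (he i hi).elim⟩) ?_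
  swap
  · rintro k k' - hk ⟨U, h1, h2, h4⟩
    by_cases hN : ∃ N, Ap E f k N
    · obtain ⟨N, hN⟩ := hN
      obtain ⟨-, U', h5, h6, h7⟩ := hB1 N (hf.2.2 _ _ hN)
      obtain ⟨W, hW⟩ := h.sep' (fun t => E t U') U
      refine ⟨W, hT.2.2.1 U U' W h1 h5 hW, (hW x).2 ⟨h2, h6⟩, fun i N' hi hN' t ht => ?_⟩
      rcases (hk i).1 hi with h8 | rfl
      · exact h4 i N' h8 hN' t ((hW t).1 ht).1
      · exact h.fn_unique hf hN hN' ▸ h7 t ((hW t).1 ht).2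
    · refine ⟨U, h1, h2, fun i N' hi hN' => ?_⟩
      rcases (hk i).1 hi with h8 | rfl
      · exact h4 i N' h8 hN'
      · exact (hN ⟨N', hN'⟩).elim
  obtain ⟨P, hP⟩ := h.power A
  obtain ⟨g0, hg1, hg0⟩ := h.exists_graph w P
    (fun j y => ∀ z, E z y ↔ E z A ∧ ∀ i N, E i j → Ap E f i N → E z N)
  have hex : ∀ j, E j w → ∃ y, Ap E g0 j y := fun j hj => by
    obtain ⟨y, hy⟩ := h.sep' (fun z => ∀ i N, E i j → Ap E f i N → E z N) A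
    exact ⟨y, (hg0 j y).2 ⟨hj, (hP y).2 fun t ht => ((hy t).1 ht).1, hy⟩⟩
  refine Exists.elim (hc w g0 hw ⟨hg1, fun j hj => ?_, fun j y hy => ?_⟩) fun g hg => ?_
  rotate_right
  · have key : ∀ j b, Ap E g j b → ∀ z, E z b → E z A ∧ ∀ i N, E i j → Ap E f i N → E z N := by
      intro j b hb z hz
      obtain ⟨y, hy⟩ := hex j (h.fn_dom hg hb)
      exact (((hg0 j y).1 hy).2.2 z).1 ((hg.2.2 j b hb).2.2 y hy z hz)
    refine ⟨w, g, hw, ⟨hg.1, hg.2.1, fun j b hb => ⟨(hg.2.2 j b hb).1, (hg.2.2 j b hb).2.1,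
      fun z hz => (key j b hb z hz).1⟩⟩, fun U hU hxU => ?_⟩
    obtain ⟨N, hN, hNU⟩ := hB2 U ⟨hT.1 U hU, U, hU, hxU, fun _ hz => hz⟩
    obtain ⟨i, hi⟩ := hsurj N hN
    exact ⟨i, hD i (h.fn_dom hf hi), fun j b hb hij z hz => hNU z ((key j b hb z hz).2 i N hij hi)⟩
  · obtain ⟨y, hy⟩ := hex j hj
    exact ⟨y, hy, fun y' hy' => h.ext _ _ fun z =>
      (((hg0 j y').1 hy').2.2 z).trans (((hg0 j y).1 hy).2.2 z).symm⟩
  · obtain ⟨hj, -, hy⟩ := (hg0 j y).1 hy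
    obtain ⟨U, h1, h2, h4⟩ := h3 j hj
    obtain ⟨a, h5, h6⟩ := hcl U h1 h2
    exact ⟨a, (hy a).2 ⟨h6, fun i N hi hN => h4 i N hi hN a h5⟩⟩

set_option synthInstance.maxSize 4000 in
theorem compact_seq (h : ZF E) {τ A x w g K : M} (hw : Om E w)
    (hg : Fn E w (fun _ b => (∃ t, E t b) ∧ IsFin E b ∧ Sub E b A) g)
    (hU : ∀ U, E U τ → E x U → ∃ i, E i w ∧ ∀ j b, Ap E g j b → E i j → Sub E b U)
    (hK : ∀ z, E z K ↔ z = x ∨ ∃ j b, Ap E g j b ∧ E z b) : CompactSub E τ K := by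
  have := h.nonempty
  intro C hC1 hC2
  obtain ⟨V, hV, hxV⟩ := hC2 x ((hK x).2 (Or.inl rfl))
  obtain ⟨U, hUτ, hUV⟩ := hC1 V hV
  obtain ⟨i, hi, hiU⟩ := hU U hUτ ((hUV x).1 hxV).1
  have step : ∀ k D, E k w → Sub E D C → IsFin E D → ∃ D', Sub E D' C ∧ IsFin E D' ∧ Sub E D D' ∧
      ∀ b z, Ap E g k b → E z b → ∃ V', E V' D' ∧ E z V' := by
    intro k D hk h1 h2
    obtain ⟨b, hb, -⟩ := hg.2.1 k hk
    obtain ⟨D', h3, h4, h5, h6⟩ := h.cover_fin (hg.2.2 k b hb).2.1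
      (fun z hz => hC2 z ((hK z).2 (Or.inr ⟨k, b, hb, hz⟩))) h1 h2
    exact ⟨D', h3, h4, h5, fun b' z hb' hz => h6 z (h.fn_unique hg hb' hb ▸ hz)⟩
  have := h.om_ind hw (fun k => ∃ D, Sub E D C ∧ IsFin E D ∧ E V D ∧
      ∀ j b z, Ap E g j b → ¬ E k j → E z b → ∃ V', E V' D ∧ E z V') ?_ ?_ i hi
  · obtain ⟨D, h1, h2, h3, h4⟩ := this
    refine ⟨D, h1, h2, fun z hz => ?_⟩
    rcases (hK z).1 hz with rfl | ⟨j, b, hb, hzb⟩
    · exact ⟨V, h3, hxV⟩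
    · by_cases hij : E i j
      · exact ⟨V, h3, (hUV z).2 ⟨hiU j b hb hij z hzb, hz⟩⟩
      · exact h4 j b z hb hij hzb
  · intro e he
    obtain ⟨s, hs⟩ := h.pair V V
    obtain ⟨e', he', hew⟩ := hw.1.1
    obtain rfl := h.emp_unique he he'
    obtain ⟨D, h1, h2, h3, h4⟩ := step e s hew (fun z hz => by
      have : z = V := by simpa using (hs z).1 hz
      exact this ▸ hV) (h.isFin_single (a := V) fun z => by simp [hs z])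
    refine ⟨D, h1, h2, h3 V ((hs V).2 (Or.inl rfl)), fun j b z hb hj hz => ?_⟩
    obtain rfl := (h.emp_or_mem hw he (h.fn_dom hg hb)).resolve_right hj
    exact h4 b z hb hz
  · rintro k k' hkw hk ⟨D, h1, h2, h3, h4⟩
    obtain ⟨D', h5, h6, h7, h8⟩ := step k' D (h.suc_mem hw hkw hk) h1 h2
    refine ⟨D', h5, h6, h7 V h3, fun j b z hb hj hz => ?_⟩
    by_cases hkj : E k j
    · obtain rfl := (h.suc_or_mem hw hk (h.fn_dom hg hb) hkj).resolve_right hj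
      exact h8 b z hb hz
    · exact (h4 j b z hb hkj hz).imp fun V' hV' => ⟨h7 V' hV'.1, hV'.2⟩

/-- Countable multiple choice implies (K). -/
theorem sentK_of_cmc (h : ZF E) (hc : CMC E) : SentK E := by
  have := h.nonempty
  intro X τ hT _ hF A hA hK
  by_contra hne
  obtain ⟨x, hx, hxA, hcl⟩ := exists_bdry h hT hne
  obtain ⟨w, g, hw, hg, hU⟩ := exists_seq h hc hT hx hF hcl
  obtain ⟨K, hK'⟩ := h.sep' (fun z => z = x ∨ ∃ j b, Ap E g j b ∧ E z b) X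
  have hK2 : ∀ z, E z K ↔ z = x ∨ ∃ j b, Ap E g j b ∧ E z b := fun z =>
    (hK' z).trans ⟨And.right, fun hz => ⟨by
      rcases hz with rfl | ⟨j, b, hb, hz⟩
      · exact hx
      · exact hA z ((hg.2.2 j b hb).2.2 z hz), hz⟩⟩
  obtain ⟨F, hF'⟩ := h.sep' (fun z => E z K) A
  obtain ⟨-, V, ⟨U, hUτ, hUV⟩, hV⟩ := hK K F (fun z hz => ((hK' z).1 hz).1)
    (compact_seq h hw hg hU hK2) hF'
  obtain ⟨i, hi, hiU⟩ := hU U hUτ
    ((hUV x).1 ((hV x).2 ⟨(hK2 x).2 (Or.inl rfl), fun h' => hxA ((hF' x).1 h').1⟩)).1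
  obtain ⟨j, hj, hjw⟩ := hw.1.2 i hi
  obtain ⟨b, hb, -⟩ := hg.2.1 j hjw
  obtain ⟨⟨t, ht⟩, -, hbA⟩ := hg.2.2 j b hb
  have htK : E t K := (hK2 t).2 (Or.inr ⟨j, b, hb, ht⟩)
  exact ((hV t).1 ((hUV t).2 ⟨hiU j b hb ((hj i).2 (Or.inr rfl)) t ht, htK⟩)).2
    ((hF' t).2 ⟨hbA t ht, htK⟩)

/-- A discrete set `A` with one added point whose neighbourhood base is a chain `B`. -/
theorem not_sentFU (h : ZF E) {A B : M} (hB : IsDenum E B)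
    (h1 : ∀ T, E T B → (∀ z, E z T → E z A ∨ z = A) ∧ E A T ∧ ∃ a, E a T ∧ E a A)
    (h2 : ∀ T T', E T B → E T' B → Sub E T T' ∨ Sub E T' T)
    (h3 : ∀ a, E a A → ∃ T, E T B ∧ ¬ E a T) (h4 : ∃ T, E T B)
    (h5 : ∀ w s, Om E w → Fn E w (fun _ y => E y A) s →
      ¬ ∀ T, E T B → ∃ k y, Ap E s k y ∧ E y T) : ¬ SentFU E := by
  have := h.nonempty
  intro hFU
  obtain ⟨X, hX⟩ := h.exists_suc A
  obtain ⟨P, hP⟩ := h.power X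
  obtain ⟨τ, hτ⟩ := h.sep' (fun U => E A U → ∃ T, E T B ∧ Sub E T U) P
  have hτ' : ∀ U, E U τ ↔ Sub E U X ∧ (E A U → ∃ T, E T B ∧ Sub E T U) := fun U => by
    rw [hτ, hP]; rfl
  have hTX : ∀ T, E T B → Sub E T X := fun T hT z hz => (hX z).2 ((h1 T hT).1 z hz)
  have hTτ : ∀ T, E T B → E T τ := fun T hT =>
    (hτ' T).2 ⟨hTX T hT, fun _ => ⟨T, hT, fun _ hz => hz⟩⟩
  have hsing : ∀ a, E a A → ∃ s, E s τ ∧ ∀ z, E z s ↔ z = a := fun a ha => by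
    obtain ⟨s, hs⟩ := h.pair a a
    have hs' : ∀ z, E z s ↔ z = a := fun z => by simp [hs z]
    exact ⟨s, (hτ' s).2 ⟨fun z hz => (hX z).2 (Or.inl ((hs' z).1 hz ▸ ha)),
      fun h' => (h.not_mem_self A ((hs' A).1 h' ▸ ha)).elim⟩, hs'⟩
  have hsep : ∀ a, E a A → ∃ U V, E U τ ∧ E V τ ∧ E a U ∧ E A V ∧ ∀ t, ¬ (E t U ∧ E t V) := by
    intro a ha
    obtain ⟨s, hs, hs'⟩ := hsing a ha
    obtain ⟨T, hT, haT⟩ := h3 a ha
    exact ⟨s, T, hs, hTτ T hT, (hs' a).2 rfl, (h1 T hT).2.1,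
      fun t ht => haT ((hs' t).1 ht.1 ▸ ht.2)⟩
  refine Exists.elim (hFU X τ ⟨fun U hU => ((hτ' U).1 hU).1, ?_, ?_, ?_⟩ ?_ ?_ A A
    (fun z hz => (hX z).2 (Or.inl hz)) ((hX A).2 (Or.inr rfl)) ?_) fun w ⟨s, hw, hs, hconv⟩ => ?_
  rotate_right
  · refine h5 w s hw hs fun T hT => ?_
    obtain ⟨n, hn, hn'⟩ := hconv T (hTτ T hT) (h1 T hT).2.1
    obtain ⟨y, hy, -⟩ := hs.2.1 n hn
    exact ⟨n, y, hy, hn' n y hn (fun _ hz => hz) hy⟩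
  · exact (hτ' X).2 ⟨fun _ hz => hz, fun _ => h4.imp fun T hT => ⟨hT, hTX T hT⟩⟩
  · intro U V W hU hV hW
    refine (hτ' W).2 ⟨fun z hz => ((hτ' U).1 hU).1 z ((hW z).1 hz).1, fun hA => ?_⟩
    obtain ⟨T, hT, hTU⟩ := ((hτ' U).1 hU).2 ((hW A).1 hA).1
    obtain ⟨T', hT', hTV⟩ := ((hτ' V).1 hV).2 ((hW A).1 hA).2
    rcases h2 T T' hT hT' with h6 | h6
    · exact ⟨T, hT, fun z hz => (hW z).2 ⟨hTU z hz, hTV z (h6 z hz)⟩⟩
    · exact ⟨T', hT', fun z hz => (hW z).2 ⟨hTU z (h6 z hz), hTV z hz⟩⟩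
  · intro C W hC hW
    refine (hτ' W).2 ⟨fun z hz => ?_, fun hA => ?_⟩
    · obtain ⟨U, hU, hz⟩ := (hW z).1 hz
      exact ((hτ' U).1 (hC U hU)).1 z hz
    · obtain ⟨U, hU, hA⟩ := (hW A).1 hA
      obtain ⟨T, hT, hTU⟩ := ((hτ' U).1 (hC U hU)).2 hA
      exact ⟨T, hT, fun z hz => (hW z).2 ⟨U, hU, hTU z hz⟩⟩
  · intro x y hx hy hxy
    rcases (hX x).1 hx with hx | rfl <;> rcases (hX y).1 hy with hy | rfl
    · obtain ⟨s, hs, hs'⟩ := hsing x hx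
      obtain ⟨t, ht, ht'⟩ := hsing y hy
      exact ⟨s, t, hs, ht, (hs' x).2 rfl, (ht' y).2 rfl,
        fun z hz => hxy (((hs' z).1 hz.1).symm.trans ((ht' z).1 hz.2))⟩
    · exact hsep x hx
    · obtain ⟨U, V, a, b, c, d, e⟩ := hsep y hy
      exact ⟨V, U, b, a, d, c, fun t ht => e t ht.symm⟩
    · exact (hxy rfl).elim
  · intro x hx
    rcases (hX x).1 hx with hx | rfl
    · obtain ⟨s, hs, hs'⟩ := hsing x hx
      obtain ⟨b, hb⟩ := h.pair s s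
      have hb' : ∀ z, E z b ↔ z = s := fun z => by simp [hb z]
      refine ⟨b, Or.inl (h.isFin_single hb'), fun N hN => ?_, ?_⟩
      · obtain rfl := (hb' N).1 hN
        exact ⟨((hτ' N).1 hs).1, N, hs, (hs' x).2 rfl, fun _ hz => hz⟩
      · rintro N ⟨-, U, -, hxU, hUN⟩
        exact ⟨s, (hb' s).2 rfl, fun z hz => (hs' z).1 hz ▸ hUN x hxU⟩
    · refine ⟨B, Or.inr hB, fun T hT => ⟨hTX T hT, T, hTτ T hT, (h1 T hT).2.1, fun _ hz => hz⟩, ?_⟩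
      rintro N ⟨-, U, hU, hxU, hUN⟩
      obtain ⟨T, hT, hTU⟩ := ((hτ' U).1 hU).2 hxU
      exact ⟨T, hT, fun z hz => hUN z (hTU z hz)⟩
  · intro U hU hA
    obtain ⟨T, hT, hTU⟩ := ((hτ' U).1 hU).2 hA
    obtain ⟨a, ha, haA⟩ := (h1 T hT).2.2
    exact ⟨a, hTU a ha, haA⟩

end Pool.Agent.MP_67b169_lc
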