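import Pool.Agent.MP_67b169_lc.Tower

/-!
Relocation of new nodes, symmetrisation of patterns.
-/

namespace Pool.Agent.MP_67b169_lc

open Pool.Agent.Lib.Forcing Pool.Agent.Lib.SymForcing Function

theorem exists_move {s t : Set Lb} (ht : t.Countable) (o : Option Bool) :
    ∃ π : Equiv.Perm Lb, (∀ ξ ∈ t, ξ ∈ s → π ξ = ξ) ∧
      ∀ ξ ∈ t, ξ ∉ s → (π ξ).2 = o ∧ ∀ η ∈ t, η.1 ≠ (π ξ).1 := by
  classical
  have hc : ((Prod.fst '' t)ᶜ : Set (Set ℕ)).Infinite := fun h =>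
    not_countable (Set.countable_univ_iff.1 (by
      simpa using (ht.image Prod.fst).union h.countable) : Countable (Set ℕ))
  have := ht.to_subtype
  obtain ⟨e, he⟩ := Countable.exists_injective_nat t
  let h : t → Set ℕ := fun ξ => (hc.natEmbedding _ (e ξ)).1
  have h1 : Injective h := fun a b hab => he ((hc.natEmbedding _).injective (Subtype.ext hab))
  have h2 : ∀ ξ, ∀ η ∈ t, η.1 ≠ h ξ := fun ξ η hη e' => (hc.natEmbedding _ (e ξ)).2 ⟨η, hη, e'⟩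
  let f : t ↪ Lb := ⟨fun ξ => if ξ.1 ∈ s then ξ.1 else (h ξ, o), fun a b hab => by
    simp only at hab
    split_ifs at hab with ha hb hb
    · exact Subtype.ext hab
    · exact (h2 b a.1 a.2 (congrArg Prod.fst hab)).elim
    · exact (h2 a b.1 b.2 (congrArg Prod.fst hab).symm).elim
    · exact h1 (congrArg Prod.fst hab)⟩
  obtain ⟨π, hπ⟩ := Cardinal.extend_function_of_lt f
    (Cardinal.mk_le_aleph0.trans_lt Cardinal.aleph0_lt_mk) ⟨Equiv.refl _⟩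
  refine ⟨π, fun ξ hξ hs => ?_, fun ξ hξ hs => ?_⟩
  · exact (hπ ⟨ξ, hξ⟩).trans (if_pos hs)
  · have : π ξ = (h ⟨ξ, hξ⟩, o) := (hπ ⟨ξ, hξ⟩).trans (if_neg hs)
    rw [this]
    exact ⟨rfl, h2 _⟩

/-- The invariant kept on tower `n` with cut level `c`. -/
def Ok (n c : ℕ) (D : Sm) (ω : Om') : Prop :=
  (∀ k ≤ c, ∀ ξ ∈ D.D n k, tw k ξ = ξ) ∧
    (∀ ξ ∈ D.D n (c + 1), tw (c + 1) ξ = ξ ∨ tw (c + 1) ξ ∉ D.D n (c + 1)) ∧
    ∀ k ξ η, ξ ∈ D.D n k → η ∈ D.D n (k + 1) → tw k ξ ∈ D.D n k → tw (k + 1) η ∈ D.D n (k + 1) →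
      (ω.1 n k (tw k ξ) (tw (k + 1) η) ↔ ω.1 n k ξ η)

theorem exists_ok (D : Sm) (ω : Om') (K : ℕ) : ∃ m, ∀ n, m ≤ n → ∀ c ≤ K, Ok n c D ω := by
  obtain ⟨m, h⟩ := D.star (K + 1)
  obtain ⟨m', h'⟩ := ω.2
  refine ⟨max m m', fun n hn c hc => ⟨fun k hk => h n (le_of_max_le_left hn) k (by omega),
    fun ξ hξ => Or.inl (h n (le_of_max_le_left hn) _ (by omega) ξ hξ),
    fun k ξ η _ _ _ _ => h' n (le_of_max_le_right hn) k ξ η⟩⟩

theorem Ok.extend {n c : ℕ} {D D' : Sm} {ω ω' : Om'} (h : Ok n c D ω) (ha : Agree D ω ω')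
    (hA : ∀ k, ∀ ξ ∈ D'.D n k, ξ ∈ D.D n k ∨ (k ≤ c ∧ tw k ξ = ξ) ∨ (c < k ∧ tw k ξ ∉ D'.D n k))
    (hD : D ≤ D') : Ok n c D' ω' := by
  have h1 : ∀ k ≤ c, ∀ ξ ∈ D'.D n k, tw k ξ = ξ := fun k hk ξ hξ => by
    rcases hA k ξ hξ with a | a | a
    · exact h.1 k hk ξ a
    · exact a.2
    · omega
  have old : ∀ k, c < k → ∀ ξ ∈ D'.D n k, tw k ξ ∈ D'.D n k → ξ ∈ D.D n k := fun k hk ξ hξ ht => by
    rcases hA k ξ hξ with a | a | a
    · exact a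
    · omega
    · exact (a.2 ht).elim
  have old' : ∀ k, c < k → ∀ ξ ∈ D'.D n k, tw k ξ ∈ D'.D n k → tw k ξ ∈ D.D n k :=
    fun k hk ξ hξ ht => old k hk _ ht (by rwa [tw_tw])
  have h2 : ∀ ξ ∈ D'.D n (c + 1), tw (c + 1) ξ = ξ ∨ tw (c + 1) ξ ∉ D'.D n (c + 1) := by
    intro ξ hξ
    by_cases ht : tw (c + 1) ξ ∈ D'.D n (c + 1)
    · exact Or.inl ((h.2.1 ξ (old _ (by omega) ξ hξ ht)).resolve_right
        fun a => a (old' _ (by omega) ξ hξ ht))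
    · exact Or.inr ht
  refine ⟨h1, h2, fun k ξ η a1 a2 a3 a4 => ?_⟩
  rcases lt_trichotomy k c with hk | rfl | hk
  · rw [h1 k hk.le ξ a1, h1 (k + 1) hk η a2]
  · rw [h1 k le_rfl ξ a1, (h2 η a2).resolve_right fun a => a a4]
  · have b1 := old k hk ξ a1 a3
    have b2 := old (k + 1) (by omega) η a2 a4
    have b3 := old' k hk ξ a1 a3
    have b4 := old' (k + 1) (by omega) η a2 a4
    rw [ha n k _ _ b3 b4, ha n k _ _ b1 b2]
    exact h.2.2 k ξ η b1 b2 b3 b4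

theorem le_im {D D' : Sm} {π : GG} (hD : D ≤ D') (hπ : ∀ n k, ∀ ξ ∈ D.D n k, π.1 n k ξ = ξ) :
    D ≤ D'.im π := fun n k ξ hξ => ⟨ξ, hD n k hξ, hπ n k ξ hξ⟩

theorem agree_fix {D : Sm} {π : GG} (hπ : ∀ n k, ∀ ξ ∈ D.D n k, π.1 n k ξ = ξ) (ω : Om') :
    Agree D ω (ac π⁻¹ ω) := by
  intro n k ξ η h1 h2
  have e : ∀ k, ∀ ξ ∈ D.D n k, (π⁻¹).1 n k ξ = ξ := fun k ξ hξ =>
    Equiv.Perm.inv_eq_iff_eq.2 (hπ n k ξ hξ).symm
  simp only [ac, e k ξ h1, e _ η h2]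

theorem reloc {D D' : Sm} {ω ω' : Om'} (hD : D ≤ D') (ha : Agree D ω ω') (c : ℕ → ℕ) (S : Set ℕ)
    (m : ℕ) (hS : ∀ n ∈ S, n < m) (hok : ∀ n ∈ S, Ok n (c n) D ω) :
    ∃ π : GG, (∀ n, n ∉ S → π.1 n = 1) ∧ (∀ n k, ∀ ξ ∈ D.D n k, π.1 n k ξ = ξ) ∧
      ∀ n ∈ S, Ok n (c n) (D'.im π) (ac π⁻¹ ω') := by
  classical
  choose p hp1 hp2 using fun n k => exists_move (s := D.D n k) (D'.ctb n k)
    (if k ≤ c n then none else some false)
  let π : GG := ⟨fun n k => if n ∈ S ∧ k ≠ 0 then p n k else 1, fun n => by simp, m, fun n hn => by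
    funext k
    exact if_neg fun h => absurd (hS n h.1) (not_lt.2 hn)⟩
  have hπ : ∀ n k, ∀ ξ ∈ D.D n k, π.1 n k ξ = ξ := fun n k ξ hξ => by
    simp only [π]
    split_ifs
    · exact hp1 n k ξ (hD n k hξ) hξ
    · rfl
  refine ⟨π, fun n hn => funext fun k => if_neg fun h => hn h.1, hπ, fun n hn =>
    (hok n hn).extend (ha.trans (agree_fix hπ ω')) ?_ (le_im hD hπ)⟩
  rintro k _ ⟨ξ, hξ, rfl⟩
  rcases k with _ | k
  · exact Or.inr (Or.inl ⟨Nat.zero_le _, rfl⟩)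
  have e : π.1 n (k + 1) = p n (k + 1) := if_pos ⟨hn, k.succ_ne_zero⟩
  by_cases hs : ξ ∈ D.D n (k + 1)
  · rw [hπ n _ ξ hs]
    exact Or.inl hs
  obtain ⟨h1, h2⟩ := hp2 n (k + 1) ξ hξ hs
  by_cases hk : k + 1 ≤ c n
  · rw [if_pos hk] at h1
    exact Or.inr (Or.inl ⟨hk, tw_none _ (e ▸ h1)⟩)
  rw [if_neg hk] at h1
  refine Or.inr (Or.inr ⟨not_le.1 hk, ?_⟩)
  rintro ⟨η, hη, e'⟩
  rw [e] at e'
  by_cases hs' : η ∈ D.D n (k + 1)
  · rw [hp1 n _ η hη hs'] at e'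
    exact h2 η hη (by rw [e', tw_fst])
  · have h3 := (hp2 n (k + 1) η hη hs').1
    rw [if_neg hk, e', show p n (k + 1) ξ = (_, some false) from Prod.ext rfl h1, tw_some] at h3
    simp at h3

/-- The twin map on tower `n`. -/
def sw (n : ℕ) : GG := ⟨fun n' k => if n' = n then tw k else 1, fun n' => ite_self _, n + 1, fun n' hn => funext fun k => if_neg (by omega)⟩

theorem swap_compat {D D' : Sm} {ω ω' : Om'} (hD : D.cl ≤ D') (ha : Agree D.cl ω ω') {n : ℕ}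
    (hok : Ok n 0 D.cl ω) : ∃ g ∈ HH D n, (∀ k, ∀ ξ ∈ D.cl.D n k, g.1 n k ξ = tw k ξ) ∧
      cnd D' ω' ⊓ SS.σ g (cnd D' ω') ≠ ⊥ := by
  obtain ⟨π, h1, h2, h3⟩ := reloc hD ha (fun _ => 0) {n} (n + 1)
    (fun n' hn => by rw [hn]; omega) (fun n' hn => by rw [hn]; exact hok)
  have h4 := (h3 n rfl).2.2
  obtain ⟨m, hm⟩ := (ac π⁻¹ ω').2
  let ν : Om' := ⟨fun n' k ξ η => (n' ≠ n ∧ (ac π⁻¹ ω').1 n' k ξ η) ∨ (n' = n ∧
      ((ξ ∈ (D'.im π).D n k ∧ η ∈ (D'.im π).D n (k + 1) ∧ (ac π⁻¹ ω').1 n k ξ η) ∨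
      (tw k ξ ∈ (D'.im π).D n k ∧ tw (k + 1) η ∈ (D'.im π).D n (k + 1) ∧
        (ac π⁻¹ ω').1 n k (tw k ξ) (tw (k + 1) η)))), max m (n + 1), fun n' hn k ξ η => by
    have : n' ≠ n := by have := le_of_max_le_right hn; omega
    simp only [this, false_and, or_false, ne_eq, not_false_iff, true_and]
    exact hm n' (le_of_max_le_left hn) k ξ η⟩
  have hν : Agree (D'.im π) (ac π⁻¹ ω') ν := by
    intro n' k ξ η a1 a2
    by_cases e : n' = n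
    · subst e
      simp only [ν, ne_eq, not_true, false_and, false_or, true_and]
      exact ⟨fun h => h.elim (fun h => h.2.2) fun h => (h4 k ξ η a1 a2 h.1 h.2.1).1 h.2.2,
        fun h => Or.inl ⟨a1, a2, h⟩⟩
    · simp [ν, e]
  have hsw : ac (sw n) ν = ν := by
    refine Subtype.ext (funext fun n' => funext fun k => funext fun ξ => funext fun η => ?_)
    by_cases e : n' = n
    · subst e
      simp only [ac, sw, if_true, ν, tw_tw, ne_eq, not_true, false_and, false_or, true_and, or_comm]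
    · simp [ac, sw, e]
  have hg : ∀ k, ∀ ξ ∈ D.cl.D n k, (π⁻¹ * sw n * π).1 n k ξ = tw k ξ := fun k ξ hξ => by
    refine Equiv.Perm.inv_eq_iff_eq.2 ?_
    change (sw n).1 n k (π.1 n k ξ) = _
    rw [h2 n k ξ hξ, h2 n k _ (Sm.tw_mem_cl hξ)]
    simp [sw]
  have h5 : Agree D' ω' (ac π ν) := by
    have := agree_im.1 hν
    rwa [← ac_mul, inv_mul_cancel, ac_one] at this
  refine ⟨π⁻¹ * sw n * π, fun n' => ?_, hg, RO.ne_bot_iff.2 ⟨ac π ν, h5, ?_⟩⟩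
  · by_cases e : n' = n
    · subst e
      exact Or.inr ⟨le_rfl, hg⟩
    · refine Or.inl fun k ξ hξ => Equiv.Perm.inv_eq_iff_eq.2 ?_
      change (sw n).1 n' k (π.1 n' k ξ) = _
      simp [sw, e]
  · refine mem_sigma.2 ?_
    rw [← ac_mul, ← mul_assoc, ← mul_assoc, mul_inv_cancel, one_mul, ac_mul, hsw]
    exact h5

end Pool.Agent.MP_67b169_lc
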