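import Pool.Agent.Lib.SymForcing.RO
import Pool.Agent.Lib.SymForcing.SymZF

/-!
Towers of nodes, the space of membership patterns, the group and the filter.
-/

namespace Pool.Agent.MP_67b169_lc

open Pool.Agent.Lib.Forcing Pool.Agent.Lib.SymForcing Function

/-- Labels of nodes. -/
abbrev Lb : Type := Set ℕ × Option Bool

/-- The twin of a label on level `k`. -/
def tw : ℕ → Equiv.Perm Lb
  | 0 => 1
  | _ + 1 => Equiv.prodCongr (Equiv.refl _) (Equiv.optionCongr Equiv.boolNot)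

theorem tw_tw (k : ℕ) (ξ : Lb) : tw k (tw k ξ) = ξ := by
  rcases k with _ | k
  · rfl
  · rcases ξ with ⟨a, _ | b⟩ <;> simp [tw]

theorem tw_fst (k : ℕ) (ξ : Lb) : (tw k ξ).1 = ξ.1 := by
  rcases k with _ | k <;> rfl

theorem tw_none (k : ℕ) {ξ : Lb} (h : ξ.2 = none) : tw k ξ = ξ := by
  rcases k with _ | k
  · rfl
  · rcases ξ with ⟨a, o⟩
    obtain rfl : o = none := h
    rfl

theorem tw_some (k : ℕ) (a : Set ℕ) (b : Bool) : tw (k + 1) (a, some b) = (a, some (!b)) := rfl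

/-- Membership patterns. -/
abbrev Pat : Type := ℕ → ℕ → Lb → Lb → Prop

/-- The pattern is symmetric on tower `n`. -/
def InvAt (ω : Pat) (n : ℕ) : Prop := ∀ k ξ η, ω n k (tw k ξ) (tw (k + 1) η) ↔ ω n k ξ η

/-- Patterns symmetric on almost all towers. -/
def Om' : Type := {ω : Pat // ∃ m, ∀ n, m ≤ n → InvAt ω n}

/-- Small sets of nodes. -/
structure Sm where
  D : ℕ → ℕ → Set Lb
  ctb : ∀ n k, (D n k).Countable
  star : ∀ c, ∃ m, ∀ n, m ≤ n → ∀ k ≤ c, ∀ ξ ∈ D n k, tw k ξ = ξ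

/-- Permutations of the nodes moving finitely many towers and fixing level zero. -/
def GG : Subgroup (ℕ → ℕ → Equiv.Perm Lb) where
  carrier := {g | (∀ n, g n 0 = 1) ∧ ∃ m, ∀ n, m ≤ n → g n = 1}
  one_mem' := ⟨fun _ => rfl, 0, fun _ _ => rfl⟩
  mul_mem' := fun {g h} ⟨h1, m, h2⟩ ⟨h3, m', h4⟩ => ⟨fun n => by simp [h1, h3],
    max m m', fun n hn => by simp [h2 n (le_of_max_le_left hn), h4 n (le_of_max_le_right hn)]⟩
  inv_mem' := fun {g} ⟨h1, m, h2⟩ => ⟨fun n => by simp [h1], m, fun n hn => by simp [h2 n hn]⟩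

namespace Sm

instance : LE Sm := ⟨fun D D' => ∀ n k, D.D n k ⊆ D'.D n k⟩

theorem le_refl (D : Sm) : D ≤ D := fun _ _ _ h => h

theorem le_trans {D D' D'' : Sm} (h : D ≤ D') (h' : D' ≤ D'') : D ≤ D'' :=
  fun n k _ hx => h' n k (h n k hx)

/-- Union. -/
def un (D D' : Sm) : Sm where
  D n k := D.D n k ∪ D'.D n k
  ctb n k := (D.ctb n k).union (D'.ctb n k)
  star c := by
    obtain ⟨m, h⟩ := D.star c
    obtain ⟨m', h'⟩ := D'.star c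
    exact ⟨max m m', fun n hn k hk ξ hξ => hξ.elim (h n (le_of_max_le_left hn) k hk ξ)
      (h' n (le_of_max_le_right hn) k hk ξ)⟩

theorem le_un_left (D D' : Sm) : D ≤ D.un D' := fun _ _ _ h => Or.inl h

theorem le_un_right (D D' : Sm) : D' ≤ D.un D' := fun _ _ _ h => Or.inr h

/-- Closure under twins. -/
def cl (D : Sm) : Sm where
  D n k := {ξ | ξ ∈ D.D n k ∨ tw k ξ ∈ D.D n k}
  ctb n k := (D.ctb n k).union ((D.ctb n k).preimage (tw k).injective)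
  star c := by
    obtain ⟨m, h⟩ := D.star c
    refine ⟨m, fun n hn k hk ξ hξ => hξ.elim (h n hn k hk ξ) fun h' => ?_⟩
    exact (h n hn k hk _ h').symm.trans (tw_tw k ξ)

theorem le_cl (D : Sm) : D ≤ D.cl := fun _ _ _ h => Or.inl h

theorem cl_mono {D D' : Sm} (h : D ≤ D') : D.cl ≤ D'.cl :=
  fun n k _ hx => hx.imp (fun a => h n k a) fun a => h n k a

theorem tw_mem_cl {D : Sm} {n k : ℕ} {ξ : Lb} (h : ξ ∈ D.cl.D n k) : tw k ξ ∈ D.cl.D n k :=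
  h.symm.imp_right fun h => by rwa [tw_tw]

/-- Image under a group element. -/
def im (g : GG) (D : Sm) : Sm where
  D n k := g.1 n k '' D.D n k
  ctb n k := (D.ctb n k).image _
  star c := by
    obtain ⟨m, h⟩ := D.star c
    obtain ⟨m', h'⟩ := g.2.2
    refine ⟨max m m', ?_⟩
    rintro n hn k hk _ ⟨ξ, hξ, rfl⟩
    rw [h' n (le_of_max_le_right hn)]
    exact h n (le_of_max_le_left hn) k hk ξ hξ

/-- A single node. -/
def one (n k : ℕ) (ξ : Lb) : Sm where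
  D n' k' := {ξ' | n' = n ∧ k' = k ∧ ξ' = ξ}
  ctb n' k' := (Set.countable_singleton ξ).mono fun _ h => h.2.2
  star c := ⟨n + 1, fun n' hn k' _ ξ' h => by have := h.1; omega⟩

end Sm

/-- Agreement on a small set. -/
def Agree (D : Sm) (ω ω' : Om') : Prop :=
  ∀ n k ξ η, ξ ∈ D.D n k → η ∈ D.D n (k + 1) → (ω'.1 n k ξ η ↔ ω.1 n k ξ η)

theorem Agree.refl (D : Sm) (ω : Om') : Agree D ω ω := fun _ _ _ _ _ _ => Iff.rfl

theorem Agree.symm {D : Sm} {ω ω' : Om'} (h : Agree D ω ω') : Agree D ω' ω :=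
  fun n k ξ η h1 h2 => (h n k ξ η h1 h2).symm

theorem Agree.trans {D : Sm} {ω ω' ω'' : Om'} (h : Agree D ω ω') (h' : Agree D ω' ω'') :
    Agree D ω ω'' := fun n k ξ η h1 h2 => (h' n k ξ η h1 h2).trans (h n k ξ η h1 h2)

theorem Agree.mono {D D' : Sm} {ω ω' : Om'} (h : Agree D' ω ω') (hD : D ≤ D') : Agree D ω ω' :=
  fun n k ξ η h1 h2 => h n k ξ η (hD _ _ h1) (hD _ _ h2)

instance : TopologicalSpace Om' where
  IsOpen U := ∀ ω ∈ U, ∃ D, ∀ ω', Agree D ω ω' → ω' ∈ U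
  isOpen_univ _ _ := ⟨Sm.one 0 0 (∅, none), fun _ _ => trivial⟩
  isOpen_inter U V hU hV ω hω := by
    obtain ⟨D, h⟩ := hU ω hω.1
    obtain ⟨D', h'⟩ := hV ω hω.2
    exact ⟨D.un D', fun ω' ha => ⟨h ω' (ha.mono (D.le_un_left D')),
      h' ω' (ha.mono (D.le_un_right D'))⟩⟩
  isOpen_sUnion S hS ω := by
    rintro ⟨U, hU, hω⟩
    obtain ⟨D, h⟩ := hS U hU ω hω
    exact ⟨D, fun ω' ha => ⟨U, hU, h ω' ha⟩⟩

theorem isOpen_def {U : Set Om'} :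
    IsOpen U ↔ ∀ ω ∈ U, ∃ D, ∀ ω', Agree D ω ω' → ω' ∈ U := Iff.rfl

/-- The right action on patterns. -/
def ac (g : GG) (ω : Om') : Om' :=
  ⟨fun n k ξ η => ω.1 n k (g.1 n k ξ) (g.1 n (k + 1) η), by
    obtain ⟨m, h⟩ := ω.2
    obtain ⟨m', h'⟩ := g.2.2
    refine ⟨max m m', fun n hn k ξ η => ?_⟩
    simp only [h' n (le_of_max_le_right hn)]
    exact h n (le_of_max_le_left hn) k ξ η⟩

theorem ac_one (ω : Om') : ac 1 ω = ω := rfl

theorem ac_mul (g h : GG) (ω : Om') : ac (g * h) ω = ac h (ac g ω) := rfl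

theorem agree_im {g : GG} {D : Sm} {ω ω' : Om'} :
    Agree (D.im g) ω ω' ↔ Agree D (ac g ω) (ac g ω') :=
  ⟨fun h n k ξ η h1 h2 => h n k _ _ ⟨ξ, h1, rfl⟩ ⟨η, h2, rfl⟩, by
    rintro h n k _ _ ⟨ξ, h1, rfl⟩ ⟨η, h2, rfl⟩
    exact h n k ξ η h1 h2⟩

theorem ac_cont (g : GG) : Continuous (ac g) := ⟨fun U hU ω hω => by
  obtain ⟨D, h⟩ := hU _ hω
  exact ⟨D.im g, fun ω' ha => h _ (agree_im.1 ha)⟩⟩

/-- The complete Boolean algebra. -/
abbrev BB : Type := RO Om'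

/-- Conditions. -/
def cnd (D : Sm) (ω : Om') : BB := RO.clo {ω' | Agree D ω ω'}
  (fun _ h => ⟨D, fun _ h' => Agree.trans h h'⟩)
  (fun _ h => ⟨D, fun _ h' h'' => h (Agree.trans h'' h'.symm)⟩)

theorem mem_cnd {D : Sm} {ω ω' : Om'} : ω' ∈ RO.pt (cnd D ω) ↔ Agree D ω ω' := Iff.rfl

theorem cnd_ne_bot (D : Sm) (ω : Om') : cnd D ω ≠ ⊥ := RO.ne_bot_iff.2 ⟨ω, Agree.refl D ω⟩

theorem cnd_le {D D' : Sm} {ω ω' : Om'} (hD : D ≤ D') (h : Agree D ω ω') :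
    cnd D' ω' ≤ cnd D ω := fun _ h' => h.trans (Agree.mono h' hD)

theorem dense {b : BB} {ω : Om'} (h : ω ∈ RO.pt b) : ∃ D, cnd D ω ≤ b := RO.isOpen_pt b ω h

theorem agree_two {n k : ℕ} {ξ η : Lb} {ω ω' : Om'}
    (h : Agree ((Sm.one n k ξ).un (Sm.one n (k + 1) η)) ω ω') : ω'.1 n k ξ η ↔ ω.1 n k ξ η :=
  h n k ξ η (Or.inl ⟨rfl, rfl, rfl⟩) (Or.inr ⟨rfl, rfl, rfl⟩)

/-- Literals. -/
def lit (n k : ℕ) (ξ η : Lb) : BB := RO.clo {ω | ω.1 n k ξ η}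
  (fun _ h => ⟨_, fun _ h' => (agree_two h').2 h⟩)
  (fun _ h => ⟨_, fun _ h' h'' => h ((agree_two h').1 h'')⟩)

/-- The elements acting on each tower of `D` trivially or, from tower `m` on, as the twin map. -/
def HH (D : Sm) (m : ℕ) : Subgroup GG where
  carrier := {g | ∀ n, (∀ k, ∀ ξ ∈ D.cl.D n k, g.1 n k ξ = ξ) ∨
    (m ≤ n ∧ ∀ k, ∀ ξ ∈ D.cl.D n k, g.1 n k ξ = tw k ξ)}
  one_mem' _ := Or.inl fun _ _ _ => rfl
  mul_mem' := by
    intro g h hg hh n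
    have e : ∀ k ξ, (g * h).1 n k ξ = g.1 n k (h.1 n k ξ) := fun _ _ => rfl
    simp only [e]
    rcases hg n with h1 | ⟨hm, h1⟩ <;> rcases hh n with h2 | ⟨hm', h2⟩
    · exact Or.inl fun k ξ hξ => by rw [h2 k ξ hξ, h1 k ξ hξ]
    · exact Or.inr ⟨hm', fun k ξ hξ => by rw [h2 k ξ hξ, h1 k _ (Sm.tw_mem_cl hξ)]⟩
    · exact Or.inr ⟨hm, fun k ξ hξ => by rw [h2 k ξ hξ, h1 k ξ hξ]⟩
    · exact Or.inl fun k ξ hξ => by rw [h2 k ξ hξ, h1 k _ (Sm.tw_mem_cl hξ), tw_tw]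
  inv_mem' := by
    intro g hg n
    have e : ∀ k ξ η, (g⁻¹).1 n k ξ = η ↔ ξ = g.1 n k η := fun _ _ _ => Equiv.Perm.inv_eq_iff_eq
    simp only [e]
    rcases hg n with h1 | ⟨hm, h1⟩
    · exact Or.inl fun k ξ hξ => (h1 k ξ hξ).symm
    · exact Or.inr ⟨hm, fun k ξ hξ => by rw [h1 k _ (Sm.tw_mem_cl hξ), tw_tw]⟩

theorem HH_mono {D D' : Sm} {m m' : ℕ} (hD : D ≤ D') (hm : m ≤ m') : HH D' m' ≤ HH D m :=
  fun _ hg n => (hg n).imp (fun h k ξ hξ => h k ξ (Sm.cl_mono hD n k hξ))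
    fun h => ⟨hm.trans h.1, fun k ξ hξ => h.2 k ξ (Sm.cl_mono hD n k hξ)⟩

theorem HH_conj {D D' : Sm} {m m' : ℕ} {g h : GG} (hD : D.cl.im g ≤ D') (hm : m ≤ m')
    (hg : ∀ n, m' ≤ n → g.1 n = 1) (hh : h ∈ HH D' m') : g⁻¹ * h * g ∈ HH D m := by
  intro n
  have e : ∀ k ξ η, (g⁻¹ * h * g).1 n k ξ = η ↔ h.1 n k (g.1 n k ξ) = g.1 n k η :=
    fun _ _ _ => Equiv.Perm.inv_eq_iff_eq
  simp only [e]
  rcases hh n with h1 | ⟨hn, h1⟩
  · exact Or.inl fun k ξ hξ => h1 k _ (Or.inl (hD n k ⟨ξ, hξ, rfl⟩))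
  · refine Or.inr ⟨hm.trans hn, fun k ξ hξ => ?_⟩
    have := h1 k _ (Or.inl (hD n k ⟨ξ, hξ, rfl⟩))
    rw [hg n hn] at this ⊢
    exact this

/-- The empty small set. -/
def Sm.emp : Sm where
  D _ _ := ∅
  ctb _ _ := Set.countable_empty
  star _ := ⟨0, fun _ _ _ _ _ h => h.elim⟩

/-- The symmetric system. -/
noncomputable def SS : Sys BB where
  G := GG
  σ := RO.hom ac ac_cont ac_one ac_mul
  F := {H | ∃ D m, H = HH D m}
  top := ⟨Sm.emp, 0, (eq_top_iff.2 fun _ _ _ => Or.inl fun _ _ h => h.elim False.elim False.elim).symm⟩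
  inf := by
    rintro _ _ ⟨D, m, rfl⟩ ⟨D', m', rfl⟩
    exact ⟨_, ⟨D.un D', max m m', rfl⟩, HH_mono (D.le_un_left D') (le_max_left _ _),
      HH_mono (D.le_un_right D') (le_max_right _ _)⟩
  conj := by
    rintro g _ ⟨D, m, rfl⟩
    obtain ⟨m', h⟩ := g.2.2
    exact ⟨_, ⟨D.cl.im g, max m m', rfl⟩, fun k hk => HH_conj (Sm.le_refl _) (le_max_left _ _)
      (fun n hn => h n (le_of_max_le_right hn)) hk⟩

theorem mem_sigma {g : GG} {b : BB} {ω : Om'} : ω ∈ RO.pt (SS.σ g b) ↔ ac g ω ∈ RO.pt b := Iff.rfl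

theorem sigma_lit (g : GG) (n k : ℕ) (ξ η : Lb) :
    SS.σ g (lit n k ξ η) = lit n k (g.1 n k ξ) (g.1 n (k + 1) η) := rfl

theorem sigma_cnd (g : GG) (D : Sm) (ω : Om') :
    SS.σ g (cnd D ω) = cnd (D.im g) (ac g⁻¹ ω) := by
  refine RO.ext (Set.ext fun ω' => ?_)
  rw [mem_sigma, mem_cnd, mem_cnd, agree_im, ← ac_mul, inv_mul_cancel, ac_one]

instance : Uncountable (Set ℕ) := ⟨fun _ => by
  obtain ⟨f, hf⟩ := exists_surjective_nat (Set ℕ)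
  exact cantor_surjective f hf⟩

theorem mem_compl_lit {n k : ℕ} {ξ η : Lb} {ω : Om'} :
    ω ∈ RO.pt (lit n k ξ η)ᶜ ↔ ¬ ω.1 n k ξ η := by
  rw [lit, RO.pt_compl_clo]
  rfl

theorem exists_fresh {s : Set Lb} (hs : s.Countable) : ∃ ξ, ξ ∉ s := by
  by_contra h
  push Not at h
  have : (Set.univ : Set Lb).Countable := hs.mono fun x _ => h x
  exact not_countable (Set.countable_univ_iff.1 this)

theorem generic (n k : ℕ) {η η' : Lb} (h : η ≠ η') :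
    ⨆ ξ, lit n k ξ η ⊓ (lit n k ξ η')ᶜ = ⊤ := by
  refine RO.iSup_eq_top _ fun c ⟨ω, hω⟩ => ?_
  obtain ⟨D, hD⟩ := dense hω
  obtain ⟨ξ, hξ⟩ := exists_fresh (D.ctb n k)
  obtain ⟨m, hm⟩ := ω.2
  let ω' : Om' := ⟨fun n' k' ξ' η'' => (n' = n ∧ k' = k ∧ ξ' = ξ ∧ η'' = η) ∨
      (¬ (n' = n ∧ k' = k ∧ ξ' = ξ) ∧ ω.1 n' k' ξ' η''), max m (n + 1), fun n' hn k' ξ' η'' => by
    have : n' ≠ n := by have := le_of_max_le_right hn; omega
    simp only [this, false_and, false_or, not_false_iff, true_and]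
    exact hm n' (le_of_max_le_left hn) k' ξ' η''⟩
  refine ⟨ξ, ω', hD fun n' k' ξ' η'' h1 _ => ?_, Or.inl ⟨rfl, rfl, rfl, rfl⟩, ?_⟩
  · have : ¬ (n' = n ∧ k' = k ∧ ξ' = ξ) := by
      rintro ⟨rfl, rfl, rfl⟩
      exact hξ h1
    simp only [ω']
    tauto
  · refine mem_compl_lit.2 ?_
    rintro (h1 | h1)
    · exact h h1.2.2.2.symm
    · exact h1.1 ⟨rfl, rfl, rfl⟩

end Pool.Agent.MP_67b169_lc
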